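import Pool.Agent.Lib.helper10.NPMatSat
import Pool.Agent.Lib.helper10.ChipRed

namespace Pool.Agent.Results.MP_3853ed_lc.NPHard

open Pool.Agent.Cx Finset

/-- `Z` arises from `X` by replacing the two different classes of `a` and `b` by their union -/
def Join {n : ℕ} (X Z : Setoid (Fin n)) : Prop :=
  ∃ a b, ¬ X a b ∧ ∀ x y, Z x y ↔ X x y ∨ (X x a ∧ X y b) ∨ (X x b ∧ X y a)

/-- least number of joins and splits turning `X` into `Y` -/
noncomputable def dist {n : ℕ} (X Y : Setoid (Fin n)) : ℕ := (SimpleGraph.fromRel Join).dist X Y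

/-- the partition given by a list of class labels -/
def part (n : ℕ) (l : List ℕ) : Setoid (Fin n) := Setoid.ker fun x => l.getD x 0

/-- partitions of an `n`-set by label lists, with a partition at total distance at most `B` -/
def Median (I : ℕ × List (List ℕ) × ℕ) : Prop :=
  (∀ l ∈ I.2.1, l.length = I.1) ∧
    ∃ Y : Setoid (Fin I.1), (I.2.1.map fun l => dist (part I.1 l) Y).sum ≤ I.2.2

open Pool.Agent.Chip

section
variable {n : ℕ}

noncomputable def ncl (X : Setoid (Fin n)) : ℕ := Nat.card (Quotient X)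

lemma ncl_ker {β : Type} [DecidableEq β] (f : Fin n → β) : ncl (Setoid.ker f) = (univ.image f).card := by
  rw [ncl, Nat.card_congr (Setoid.quotientKerEquivRange f), ← Set.image_univ, ← coe_univ,
    ← coe_image, Nat.card_coe_set_eq, Set.ncard_coe_finset]

open Classical in
noncomputable def jn (X : Setoid (Fin n)) (a b : Fin n) : Setoid (Fin n) :=
  Setoid.ker fun x => if X x b then Quotient.mk X a else Quotient.mk X x

lemma jn_iff {X : Setoid (Fin n)} {a b x y : Fin n} :
    jn X a b x y ↔ X x y ∨ (X x a ∧ X y b) ∨ (X x b ∧ X y a) := by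
  have t := @Setoid.trans' _ X
  have s := @Setoid.symm' _ X
  rw [jn, Setoid.ker_def]
  split_ifs with h1 h2 h2 <;> simp only [Quotient.eq, true_iff]
  · exact Or.inl (t h1 (s h2))
  · exact ⟨fun h => Or.inr (Or.inr ⟨h1, s h⟩), by
      rintro (h | h | h); exacts [absurd (t (s h) h1) h2, absurd h.2 h2, s h.2]⟩
  · exact ⟨fun h => Or.inr (Or.inl ⟨h, h2⟩), by
      rintro (h | h | h); exacts [absurd (t h h2) h1, h.1, absurd h.1 h1]⟩
  · exact ⟨Or.inl, by rintro (h | h | h); exacts [h, absurd h.2 h2, absurd h.1 h1]⟩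

lemma jn_le {X Z : Setoid (Fin n)} {a b : Fin n} : jn X a b ≤ Z ↔ X ≤ Z ∧ Z a b := by
  simp only [Setoid.le_def, jn_iff]
  constructor
  · exact fun h => ⟨fun e => h (Or.inl e), h (Or.inr (Or.inl ⟨X.refl' _, X.refl' _⟩))⟩
  · rintro ⟨h, e⟩ x y (h' | h' | h')
    · exact h h'
    · exact Z.trans' (h h'.1) (Z.trans' e (Z.symm' (h h'.2)))
    · exact Z.trans' (h h'.1) (Z.trans' (Z.symm' e) (Z.symm' (h h'.2)))

lemma jn_ncl {X : Setoid (Fin n)} {a b : Fin n} (h : ¬ X a b) : ncl (jn X a b) + 1 = ncl X := by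
  classical
  have : (univ.image fun x => if X x b then Quotient.mk X a else Quotient.mk X x) =
      univ.erase (Quotient.mk X b) := by
    ext q
    induction q using Quotient.inductionOn with | _ y => ?_
    simp only [mem_image, mem_univ, true_and, mem_erase, and_true, ne_eq, Quotient.eq]
    constructor
    · rintro ⟨x, e⟩ h'
      split_ifs at e with h1 <;> rw [Quotient.eq] at e
      exacts [h (X.trans' e h'), h1 (X.trans' e h')]
    · exact fun h' => ⟨y, if_neg h'⟩
  rw [jn, ncl_ker, this, card_erase_add_one (mem_univ _), card_univ, ncl, Nat.card_eq_fintype_card]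

lemma join_iff {X Z : Setoid (Fin n)} : Join X Z ↔ ∃ a b, ¬ X a b ∧ Z = jn X a b := by
  simp only [Join, Setoid.ext_iff, jn_iff]

lemma join_pot {X Z : Setoid (Fin n)} (h : Join X Z) (Y : Setoid (Fin n)) :
    ncl Z + 1 = ncl X ∧ (ncl (Z ⊔ Y) = ncl (X ⊔ Y) ∨ ncl (Z ⊔ Y) + 1 = ncl (X ⊔ Y)) := by
  obtain ⟨a, b, h', rfl⟩ := join_iff.1 h
  have : jn X a b ⊔ Y = jn (X ⊔ Y) a b := eq_of_forall_ge_iff fun Z => by
    simp only [sup_le_iff, jn_le]; tauto
  refine ⟨jn_ncl h', ?_⟩
  rw [this]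
  by_cases e : (X ⊔ Y) a b
  · rw [le_antisymm (jn_le.2 ⟨le_rfl, e⟩) (jn_le.1 le_rfl).1]; exact Or.inl rfl
  · exact Or.inr (jn_ncl e)

lemma walk_up (k : ℕ) : ∀ X Z : Setoid (Fin n), X ≤ Z → ncl X ≤ k →
    ∃ w : (SimpleGraph.fromRel Join).Walk X Z, w.length + ncl Z = ncl X := by
  induction k with
  | zero =>
    intro X Z h e
    obtain rfl : X = Z := by
      by_contra hc
      obtain ⟨a, b, h1⟩ : ∃ a b, ¬ X a b := by
        by_contra! h1; exact hc (le_antisymm h fun a b _ => h1 a b)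
      have := jn_ncl h1; omega
    exact ⟨.nil, by simp⟩
  | succ k ih =>
    intro X Z h e
    by_cases hc : X = Z
    · subst hc; exact ⟨.nil, by simp⟩
    obtain ⟨a, b, h1, h2⟩ : ∃ a b, Z a b ∧ ¬ X a b := by
      by_contra! h1; exact hc (le_antisymm h fun a b => h1 a b)
    have := jn_ncl h2
    obtain ⟨w, hw⟩ := ih (jn X a b) Z (jn_le.2 ⟨h, h1⟩) (by omega)
    refine ⟨.cons (v := jn X a b) ⟨fun e => ?_, Or.inl (join_iff.2 ⟨a, b, h2, rfl⟩)⟩ w, ?_⟩
    · rw [← e] at this; omega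
    · rw [SimpleGraph.Walk.length_cons]; omega

lemma dist_eq (X Y : Setoid (Fin n)) : dist X Y + 2 * ncl (X ⊔ Y) = ncl X + ncl Y := by
  obtain ⟨w1, h1⟩ := walk_up _ X (X ⊔ Y) le_sup_left le_rfl
  obtain ⟨w2, h2⟩ := walk_up _ Y (X ⊔ Y) le_sup_right le_rfl
  have h3 := SimpleGraph.dist_le (w1.append w2.reverse)
  obtain ⟨w, hw⟩ := (w1.append w2.reverse).reachable.exists_walk_length_eq_dist
  have h4 : ∀ X Y : Setoid (Fin n), ∀ w : (SimpleGraph.fromRel Join).Walk X Y,
      ncl X + ncl Y ≤ w.length + 2 * ncl (X ⊔ Y) := by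
    intro X Y w
    induction w with
    | nil => simp [two_mul]
    | @cons X Z Y h w ih =>
      rw [SimpleGraph.Walk.length_cons]
      rcases h.2 with h | h <;> have := join_pot h Y <;> omega
  have := h4 _ _ w
  simp only [SimpleGraph.Walk.length_append, SimpleGraph.Walk.length_reverse] at h3
  unfold dist; omega

open Classical in
noncomputable def sz (X : Setoid (Fin n)) (x : Fin n) : ℕ := (univ.filter (X x)).card

lemma ncl_sum (X : Setoid (Fin n)) : (ncl X : ℚ) = ∑ x, 1 / (sz X x : ℚ) := by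
  classical
  rw [← sum_fiberwise univ (Quotient.mk X), ncl, Nat.card_eq_fintype_card, ← card_univ,
    card_eq_sum_ones, Nat.cast_sum]
  refine sum_congr rfl fun q _ => ?_
  induction q using Quotient.inductionOn with | _ y => ?_
  have : ∀ x, X y x → sz X x = sz X y := fun x h => by
    unfold sz; congr 1; ext z; simpa using ⟨X.trans' h, X.trans' (X.symm' h)⟩
  have e : univ.filter (fun x => Quotient.mk X x = Quotient.mk X y) = univ.filter (X y) := by
    ext z; simpa [Quotient.eq] using ⟨X.symm', X.symm'⟩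
  have p : 0 < sz X y := card_pos.2 ⟨y, by simp⟩
  rw [e, sum_congr rfl fun x hx => by rw [this x (by simpa using hx)], sum_const, nsmul_eq_mul]
  change _ = (sz X y : ℚ) * _
  field_simp; simp

lemma sz_mono {X Z : Setoid (Fin n)} (h : X ≤ Z) (x : Fin n) : sz X x ≤ sz Z x :=
  card_le_card fun y => by simpa using fun e => h e

lemma ncl_le {X : Setoid (Fin n)} (S : Finset (Fin n)) (h : ∀ x, ∃ s ∈ S, X x s) : ncl X ≤ S.card := by
  classical
  rw [ncl, Nat.card_eq_fintype_card, ← card_univ]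
  refine card_le_card_of_surjOn (Quotient.mk X) fun q _ => ?_
  induction q using Quotient.inductionOn with | _ y => ?_
  obtain ⟨s, h1, h2⟩ := h y
  exact ⟨s, h1, Quotient.sound (X.symm' h2)⟩

lemma two_le_ncl {X : Setoid (Fin n)} {x y : Fin n} (h : ¬ X x y) : 2 ≤ ncl X :=
  Finite.one_lt_card_iff_nontrivial.2 ⟨_, _, fun e => h (Quotient.exact e)⟩

end

/-- labels of the perfect matching chosen by `y` in the 4-cycles, and the partner map -/
def ml (y : ℕ → Bool) (x : ℕ) : ℕ :=
  2 * (x / 4) + if y (x / 4) = true then x % 4 / 2 else if x % 4 = 1 ∨ x % 4 = 2 then 1 else 0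

def pr (y : ℕ → Bool) (x : ℕ) : ℕ :=
  if y (x / 4) = true then (if x % 2 = 0 then x + 1 else x - 1) else x / 4 * 4 + (3 - x % 4)

lemma pr_div (y : ℕ → Bool) (x : ℕ) : pr y x / 4 = x / 4 ∧ pr y x ≠ x := by
  unfold pr; split_ifs <;> omega

lemma ml_eq {y : ℕ → Bool} {x z : ℕ} : ml y x = ml y z ↔ z = x ∨ z = pr y x := by
  by_cases h : z / 4 = x / 4
  · unfold ml pr; rw [h]; split_ifs <;> omega
  · have := pr_div y x
    have l : ∀ x, ml y x / 2 = x / 4 := fun x => by unfold ml; split_ifs <;> omega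
    constructor
    · intro e; have := l x; have := l z; omega
    · rintro (rfl | rfl) <;> omega

section
variable {n : ℕ}

def pf (y : ℕ → Bool) (x : Fin (4 * n)) : Fin (4 * n) := ⟨pr y x, by have := pr_div y x; omega⟩

def M (n : ℕ) (y : ℕ → Bool) : Setoid (Fin (4 * n)) := Setoid.ker fun x => ml y x

lemma M_iff {y : ℕ → Bool} {x z : Fin (4 * n)} : M n y x z ↔ z = x ∨ z = pf y x := by
  rw [M, Setoid.ker_def, ml_eq]; simp only [Fin.ext_iff, pf]

lemma pf_congr {y y' : ℕ → Bool} {x : Fin (4 * n)} (h : y (x / 4) = y' (x / 4)) : pf y x = pf y' x := by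
  simp only [pf, pr, h]

lemma pf_ne (y : ℕ → Bool) (x : Fin (4 * n)) : pf y x ≠ x := fun e => (pr_div y x).2 (congrArg Fin.val e)

lemma pf_pf (y : ℕ → Bool) (x : Fin (4 * n)) : pf y (pf y x) = x :=
  (((M_iff.1 ((M n y).symm' (M_iff.2 (Or.inr rfl)))).resolve_left (pf_ne y x).symm)).symm

lemma sz_M (y : ℕ → Bool) (x : Fin (4 * n)) : sz (M n y) x = 2 := by
  rw [← card_pair (pf_ne y x).symm, sz]; congr 1; ext z; simp [M_iff]

lemma sz_even {y : ℕ → Bool} {Z : Setoid (Fin (4 * n))} (h : M n y ≤ Z) (x : Fin (4 * n)) :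
    sz Z x % 2 = 0 := by
  classical
  have := sum_involution (s := univ.filter (Z x)) (f := fun _ => (1 : ZMod 2)) (fun z _ => pf y z)
    (fun _ _ => rfl) (fun z _ _ => pf_ne y z)
    (fun z hz => by simpa using Z.trans' (by simpa using hz) (h (M_iff.2 (Or.inr rfl))))
    fun z _ => pf_pf y z
  rw [sum_const, nsmul_eq_mul, mul_one, ZMod.natCast_eq_zero_iff] at this
  exact Nat.mod_eq_zero_of_dvd (by simpa only [sz] using this)

lemma sz_MM (y y' : ℕ → Bool) (x : Fin (4 * n)) :
    sz (M n y ⊔ M n y') x ≤ if y (x / 4) = y' (x / 4) then 2 else 4 := by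
  have key : ∀ w : ℕ → Bool, (w = y ∨ w = y') → M n w ≤ Setoid.ker fun x : Fin (4 * n) =>
      if y (x / 4) = y' (x / 4) then ml y x else 2 * (x / 4) := by
    intro w hw a b e
    rcases M_iff.1 e with rfl | rfl
    · rfl
    · simp only [Setoid.ker_def, pf, (pr_div w a).1]
      split_ifs with h
      · refine ml_eq.2 (Or.inr ?_)
        rcases hw with rfl | rfl
        · rfl
        · simp only [pr, h]
      · rfl
  refine (sz_mono (sup_le (key y (Or.inl rfl)) (key y' (Or.inr rfl))) x).trans ?_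
  have l : ∀ x, ml y x / 2 = x / 4 := fun x => by unfold ml; split_ifs <;> omega
  have l1 := l x
  split_ifs with h
  · refine le_trans (card_le_card fun z => ?_) (sz_M y x).le
    have l2 := l z
    simp only [mem_filter, mem_univ, true_and, Setoid.ker_def, h, if_true]
    split_ifs with h'
    · exact id
    · intro e; exact absurd (by rwa [show z.1 / 4 = x / 4 by omega]) h'
  · refine (card_le_card_of_injOn (t := range 4) (fun z => z.1 % 4) (fun z _ => by simp; omega)
      fun z hz w hw e => ?_).trans (by simp)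
    have l2 := l z
    have l3 := l w
    simp only [coe_filter, mem_univ, true_and, Setoid.ker_def, h, if_false, Set.mem_ofPred_eq] at hz hw e
    ext; split_ifs at hz hw <;> omega

/-- the per-element bound -/
lemma elem (Y : Setoid (Fin (4 * n))) (x : Fin (4 * n)) :
    4 * (1 / (sz (M n (fun _ => true) ⊔ Y) x : ℚ)) + 4 * (1 / sz (M n (fun _ => false) ⊔ Y) x) -
      3 * (1 / sz Y x) ≤ 5 / 4 ∨
    4 * (1 / (sz (M n (fun _ => true) ⊔ Y) x : ℚ)) + 4 * (1 / sz (M n (fun _ => false) ⊔ Y) x) -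
      3 * (1 / sz Y x) ≤ 3 / 2 ∧ sz Y x = 2 ∧
      (Y x (pf (fun _ => true) x) ∨ Y x (pf (fun _ => false) x)) := by
  classical
  have k1 : ∀ y, sz (M n y ⊔ Y) x ≤ 2 → univ.filter (Y x) ⊆ {x, pf y x} := fun y h => by
    have : ({x, pf y x} : Finset _) = univ.filter ((M n y ⊔ Y) x) :=
      eq_of_subset_of_card_le (fun z hz => by
        simpa using (le_sup_left : M n y ≤ _) (M_iff.2 (by simpa using hz)))
        (by rw [card_pair (pf_ne y x).symm]; simpa only [sz] using h)
    rw [this]; intro z; simpa using fun e => (le_sup_right : Y ≤ _) e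
  have k2 : ∀ y, sz (M n y ⊔ Y) x ≤ 2 → sz Y x = 2 → Y x (pf y x) := fun y h h' => by
    have := eq_of_subset_of_card_le (k1 y h) (by rw [card_pair (pf_ne y x).symm]; exact h'.ge)
    have h2 : pf y x ∈ univ.filter (Y x) := by rw [this]; simp
    simpa using h2
  have k3 : sz (M n (fun _ => true) ⊔ Y) x ≤ 2 → sz (M n (fun _ => false) ⊔ Y) x ≤ 2 → sz Y x ≤ 1 :=
    fun h h' => (card_le_card (t := {x}) fun z hz => by
      have a1 := k1 _ h (by simpa using hz)
      have a2 := k1 _ h' (by simpa using hz)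
      simp only [mem_insert, mem_singleton, Fin.ext_iff, pf, pr] at a1 a2 ⊢
      simp at a1 a2
      split_ifs at a1 <;> omega).trans (by simp)
  have k4 : ∀ y, 2 ≤ sz (M n y ⊔ Y) x ∧ sz Y x ≤ sz (M n y ⊔ Y) x ∧ sz (M n y ⊔ Y) x % 2 = 0 :=
    fun y => ⟨sz_M y x ▸ sz_mono le_sup_left x, sz_mono le_sup_right x, sz_even le_sup_left x⟩
  have k5 : 0 < sz Y x := card_pos.2 ⟨x, by simp⟩
  have k6 := k2 fun _ => true
  have k7 := k2 fun _ => false
  have k8 := k4 fun _ => true
  have k9 := k4 fun _ => false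
  generalize sz (M n (fun _ => true) ⊔ Y) x = t at *
  generalize sz (M n (fun _ => false) ⊔ Y) x = f at *
  generalize sz Y x = c at *
  have inv : ∀ a b : ℕ, 0 < a → a ≤ b → 1 / (b : ℚ) ≤ 1 / a := fun a b h1 h2 =>
    one_div_le_one_div_of_le (by exact_mod_cast h1) (by exact_mod_cast h2)
  have i1 := inv 2 t (by omega) k8.1
  have i2 := inv 2 f (by omega) k9.1
  rcases (by omega : c = 1 ∨ c = 2 ∧ t = 2 ∧ 4 ≤ f ∨ c = 2 ∧ f = 2 ∧ 4 ≤ t ∨
    c ≤ 4 ∧ 4 ≤ t ∧ 4 ≤ f ∨ 4 ≤ c) with h | h | h | h | h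
  · left; subst h; push_cast at *; linarith
  · have := inv 4 f (by omega) h.2.2
    refine Or.inr ⟨?_, h.1, Or.inl (k6 (by omega) h.1)⟩
    rw [h.1]; push_cast at *; linarith
  · have := inv 4 t (by omega) h.2.2
    refine Or.inr ⟨?_, h.1, Or.inr (k7 (by omega) h.1)⟩
    rw [h.1]; push_cast at *; linarith
  · have := inv 4 t (by omega) h.2.1
    have := inv 4 f (by omega) h.2.2
    have := inv c 4 k5 h.1
    left; push_cast at *; linarith
  · have := inv c t k5 k8.2.1
    have := inv c f k5 k9.2.1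
    have := inv 4 c (by omega) h
    left; push_cast at *; linarith

lemma heavy_le (Y : Setoid (Fin (4 * n))) :
    4 * ncl (M n (fun _ => true) ⊔ Y) + 4 * ncl (M n (fun _ => false) ⊔ Y) ≤ 6 * n + 3 * ncl Y ∧
    (6 * n + 3 * ncl Y ≤ 4 * ncl (M n (fun _ => true) ⊔ Y) + 4 * ncl (M n (fun _ => false) ⊔ Y) →
      ∃ y, M n y ≤ Y) := by
  classical
  have e : ∑ x, (4 * (1 / (sz (M n (fun _ => true) ⊔ Y) x : ℚ)) +
      4 * (1 / sz (M n (fun _ => false) ⊔ Y) x) - 3 * (1 / sz Y x)) =
      4 * ncl (M n (fun _ => true) ⊔ Y) + 4 * ncl (M n (fun _ => false) ⊔ Y) - 3 * ncl Y := by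
    simp only [ncl_sum, sum_sub_distrib, sum_add_distrib, mul_sum]
  have c : ∑ _x : Fin (4 * n), (3 / 2 : ℚ) = 6 * n := by simp; ring
  have le := fun x => (elem Y x).elim (fun h => h.trans (by norm_num)) And.left
  refine ⟨?_, fun h => ?_⟩
  · have := sum_le_sum fun x (_ : x ∈ univ) => le x
    rw [e, c] at this
    qify; linarith
  have g : ∀ x, sz Y x = 2 ∧ (Y x (pf (fun _ => true) x) ∨ Y x (pf (fun _ => false) x)) := fun x => by
    refine ((elem Y x).resolve_left fun h' => ?_).2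
    have := sum_lt_sum (fun x (_ : x ∈ univ) => le x) ⟨x, mem_univ _, h'.trans_lt (by norm_num)⟩
    rw [e, c] at this
    qify at h; linarith
  have g1 : ∀ x, Y x (pf (fun _ => true) x) → ¬ Y x (pf (fun _ => false) x) := fun x h1 h2 => by
    have := card_le_card (s := {x, pf (fun _ => true) x, pf (fun _ => false) x})
      (t := univ.filter (Y x)) (by simp [insert_subset_iff, h1, h2])
    rw [card_eq_three.2 ⟨_, _, _, (pf_ne _ x).symm, (pf_ne _ x).symm, by
      simp only [ne_eq, Fin.ext_iff, pf, pr]; simp; split_ifs <;> omega, rfl⟩] at this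
    have := (g x).1
    unfold sz at this
    simp only [← Nat.not_lt] at *
    omega
  have g2 : ∀ b x, Y x (pf (fun _ => true) x) →
      Y (pf (fun _ => b) x) (pf (fun _ => true) (pf (fun _ => b) x)) := fun b x h => by
    cases b
    · exact (g _).2.resolve_right fun h' => g1 x h (Y.symm' (by rwa [pf_pf] at h'))
    · rw [pf_pf]; exact Y.symm' h
  have g3 : ∀ x z : Fin (4 * n), x.1 / 4 = z / 4 → Y x (pf (fun _ => true) x) →
      Y z (pf (fun _ => true) z) := fun x z e h => by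
    have : z = x ∨ z = pf (fun _ => true) x ∨ z = pf (fun _ => false) x ∨
        z = pf (fun _ => true) (pf (fun _ => false) x) := by
      simp only [Fin.ext_iff, pf, pr]; simp; split_ifs <;> omega
    rcases this with rfl | rfl | rfl | rfl
    exacts [h, g2 _ _ h, g2 _ _ h, g2 _ _ (g2 _ _ h)]
  refine ⟨fun s => decide (∃ x : Fin (4 * n), x.1 / 4 = s ∧ Y x (pf (fun _ => true) x)),
    fun x z e => ?_⟩
  rcases M_iff.1 e with rfl | rfl
  · rfl
  · by_cases h' : ∃ w : Fin (4 * n), w.1 / 4 = x / 4 ∧ Y w (pf (fun _ => true) w)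
    · obtain ⟨w, h1, h2⟩ := id h'
      rw [pf_congr (y' := fun _ => true) (decide_eq_true h')]
      exact g3 w x h1 h2
    · rw [pf_congr (y' := fun _ => false) (decide_eq_false h')]
      exact (g x).2.resolve_left fun h1 => h' ⟨x, rfl, h1⟩

lemma heavy_ge (y : ℕ → Bool) : 6 * n + 3 * ncl (M n y) ≤
    4 * ncl (M n (fun _ => true) ⊔ M n y) + 4 * ncl (M n (fun _ => false) ⊔ M n y) := by
  have : ∀ x : Fin (4 * n), (3 : ℚ) ≤ 4 * (1 / (sz (M n (fun _ => true) ⊔ M n y) x : ℚ)) +
      4 * (1 / sz (M n (fun _ => false) ⊔ M n y) x) := fun x => by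
    have inv : ∀ w (b : ℕ), sz (M n w ⊔ M n y) x ≤ b → 1 / (b : ℚ) ≤ 1 / sz (M n w ⊔ M n y) x :=
      fun w b h2 => one_div_le_one_div_of_le (by
        have := sz_M w x ▸ sz_mono (le_sup_left : M n w ≤ M n w ⊔ M n y) x
        exact_mod_cast (by omega)) (by exact_mod_cast h2)
    have a1 := inv _ _ (sz_MM (fun _ => true) y x)
    have a2 := inv _ _ (sz_MM (fun _ => false) y x)
    cases h : y (x / 4) <;> simp only [h] at a1 a2 <;> norm_num at a1 a2 ⊢ <;> linarith
  have := sum_le_sum fun x (_ : x ∈ univ) => this x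
  qify
  simp only [ncl_sum, sz_M, sum_add_distrib, ← mul_sum, sum_const, card_univ, Fintype.card_fin,
    nsmul_eq_mul] at this ⊢
  push_cast at this ⊢
  linarith

end

def rho (κ : List ℕ) (s : ℕ) : ℕ := lsum s fun t => if κ.getD t 0 = 0 then 0 else 1

/-- labels of the partition of a clause -/
def lab (n : ℕ) (κ : List ℕ) (x : ℕ) : ℕ :=
  if κ.getD (x / 4) 0 = 0 ∨ x % 4 = 2 then 0 else if x % 4 = 0 then rho κ (x / 4) + 1
  else if (x % 4 = 3 ↔ κ.getD (x / 4) 0 = 1) then rho κ (x / 4) else n + 1 + x / 4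

lemma rho_succ (κ : List ℕ) (s : ℕ) : rho κ (s + 1) = rho κ s + if κ.getD s 0 = 0 then 0 else 1 := by
  simp only [rho, lsum_eq, sum_range_succ]

lemma rho_mono (κ : List ℕ) : Monotone (rho κ) :=
  monotone_nat_of_le_succ fun s => by rw [rho_succ]; omega

lemma rho_le (κ : List ℕ) (s : ℕ) : rho κ s ≤ s := by
  induction s with
  | zero => simp [rho, lsum_eq]
  | succ s ih => rw [rho_succ]; split_ifs <;> omega

def CL (n : ℕ) (κ : List ℕ) : Setoid (Fin (4 * n)) := Setoid.ker fun x => lab n κ x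

section
variable {n : ℕ} {κ : List ℕ} {y : ℕ → Bool}

lemma clause_ge (h : ∃ s < n, κ.getD s 0 ≠ 0 ∧ (κ.getD s 0 = 1 ↔ y s = true)) :
    2 ≤ ncl (CL n κ ⊔ M n y) := by
  classical
  obtain ⟨s, hs, h1, h2, h3⟩ : ∃ s < n, κ.getD s 0 ≠ 0 ∧ (κ.getD s 0 = 1 ↔ y s = true) ∧
      ∀ t < n, κ.getD t 0 ≠ 0 → (κ.getD t 0 = 1 ↔ y t = true) → t ≤ s := by
    obtain ⟨s, hs, h⟩ := exists_max_image ((range n).filter fun s => κ.getD s 0 ≠ 0 ∧
      (κ.getD s 0 = 1 ↔ y s = true)) id (by obtain ⟨s, h⟩ := h; exact ⟨s, by simpa using h⟩)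
    simp only [mem_filter, mem_range] at hs h
    exact ⟨s, hs.1, hs.2.1, hs.2.2, fun t a b c => h t ⟨a, b, c⟩⟩
  have : CL n κ ⊔ M n y ≤ Setoid.ker fun x : Fin (4 * n) =>
      (rho κ s < lab n κ x ∧ lab n κ x ≤ n) ∨ lab n κ x = n + 1 + s := by
    refine sup_le (fun a b e => by rw [Setoid.ker_def, show lab n κ a = lab n κ b from e])
      fun a b e => ?_
    rcases M_iff.1 e with rfl | rfl
    · rfl
    have a1 := h3 (a / 4) (by omega)
    have a2 := rho_le κ (a / 4)
    have a3 : a.1 / 4 < s → rho κ (a / 4 + 1) ≤ rho κ s := fun h => rho_mono κ h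
    have a4 : s < a.1 / 4 → rho κ (s + 1) ≤ rho κ (a / 4) := fun h => rho_mono κ h
    have a5 : a.1 / 4 < n := by omega
    have a6 : a.1 / 4 = s → rho κ (a / 4) = rho κ s ∧ (κ.getD (a / 4) 0 = 1 ↔ y (a / 4) = true) :=
      fun h => by rw [h]; exact ⟨rfl, h2⟩
    rw [rho_succ] at a3 a4
    rw [if_neg h1] at a4
    simp only [Setoid.ker_def, eq_iff_iff, lab, pf, (pr_div y a).1]
    by_cases c : κ.getD (a / 4) 0 = 0
    · simp only [c, true_or, if_true]
    have a7 : a.1 % 4 < 4 := Nat.mod_lt _ (by omega)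
    have a8 : pr y a % 4 = if y (a / 4) = true then (if a.1 % 4 % 2 = 0 then a.1 % 4 + 1 else
        a.1 % 4 - 1) else 3 - a.1 % 4 := by unfold pr; split_ifs <;> omega
    rw [a8]
    simp only [c, if_false, false_or, ne_eq, not_false_eq_true, true_imp_iff] at a1 a3 ⊢
    generalize a.1 % 4 = i at *
    generalize κ.getD (a / 4) 0 = k at *
    by_cases c1 : k = 1 <;> cases c2 : y (a / 4) <;> interval_cases i <;>
      simp [c1, c2] at a1 a6 ⊢ <;> omega
  refine two_le_ncl (x := ⟨4 * s, by omega⟩) (y := ⟨4 * s + 2, by omega⟩) fun e => ?_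
  have := this e
  have a1 := rho_le κ s
  simp only [Setoid.ker_def, lab, show 4 * s / 4 = s by omega, show 4 * s % 4 = 0 by omega,
    show (4 * s + 2) % 4 = 2 by omega, h1] at this
  simp at this
  omega

lemma clause_le (hn : 0 < n) {Y : Setoid (Fin (4 * n))} (hY : M n y ≤ Y) :
    ncl (CL n κ ⊔ Y) ≤ 2 ∧
      ((¬ ∃ s < n, κ.getD s 0 ≠ 0 ∧ (κ.getD s 0 = 1 ↔ y s = true)) → ncl (CL n κ ⊔ Y) ≤ 1) := by
  classical
  obtain ⟨E, hE⟩ : ∃ E, E = CL n κ ⊔ Y := ⟨_, rfl⟩
  rw [← hE]
  have e1 : ∀ a b : Fin (4 * n), lab n κ a = lab n κ b → E a b := fun a b e =>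
    hE ▸ (le_sup_left : CL n κ ≤ _) e
  have e2 : ∀ a b : Fin (4 * n), ml y a = ml y b → E a b := fun a b e =>
    hE ▸ (le_sup_right : Y ≤ _) (hY e)
  let z : Fin (4 * n) := ⟨2, by omega⟩
  have z0 : ∀ a : Fin (4 * n), lab n κ a = 0 → E a z := fun a e => e1 a z (by rw [e]; simp [lab, z])
  have gad : ∀ s < n, κ.getD s 0 ≠ 0 → ∃ a b d : Fin (4 * n), lab n κ a = rho κ (s + 1) ∧
      lab n κ b = rho κ s ∧ lab n κ d = n + 1 + s ∧
      if (κ.getD s 0 = 1 ↔ y s = true) then E b z ∧ E d a else E a b ∧ E d z := fun s hs h => by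
    have c := z0 ⟨4 * s + 2, by omega⟩ (by simp [lab, show (4 * s + 2) % 4 = 2 by omega])
    have q : ∀ i < 4, (4 * s + i) / 4 = s ∧ (4 * s + i) % 4 = i := fun i hi => by omega
    have q0 : 4 * s / 4 = s ∧ 4 * s % 4 = 0 := by omega
    have q1 := q 1 (by omega)
    have q2 := q 2 (by omega)
    have q3 := q 3 (by omega)
    by_cases c1 : κ.getD s 0 = 1
    · refine ⟨⟨4 * s, by omega⟩, ⟨4 * s + 3, by omega⟩, ⟨4 * s + 1, by omega⟩,
        by simp only [lab, rho_succ, q0, h]; simp, by simp only [lab, q3, c1]; simp,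
        by simp only [lab, q1, c1]; simp, ?_⟩
      cases c2 : y s <;> simp only [c1, true_iff, if_true, Bool.false_eq_true, if_false]
      · exact ⟨e2 _ _ (by simp [ml, q0, q3, c2]), E.trans' (e2 _ _ (by simp [ml, q1, q2, c2])) c⟩
      · exact ⟨E.trans' (e2 _ _ (by simp [ml, q2, q3, c2])) c, e2 _ _ (by simp [ml, q0, q1, c2])⟩
    · refine ⟨⟨4 * s, by omega⟩, ⟨4 * s + 1, by omega⟩, ⟨4 * s + 3, by omega⟩,
        by simp only [lab, rho_succ, q0, h]; simp, by simp only [lab, q1, c1, h]; simp,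
        by simp only [lab, q3, c1, h]; simp, ?_⟩
      cases c2 : y s <;> simp only [c1, false_iff, if_true, Bool.false_eq_true, if_false, not_true]
      · exact ⟨E.trans' (e2 _ _ (by simp [ml, q1, q2, c2])) c, e2 _ _ (by simp [ml, q0, q3, c2])⟩
      · exact ⟨e2 _ _ (by simp [ml, q0, q1, c2]), E.trans' (e2 _ _ (by simp [ml, q2, q3, c2])) c⟩
  have cs : ∀ x : Fin (4 * n), lab n κ x = 0 ∨ (∃ s ≤ n, lab n κ x = rho κ s) ∨
      ∃ s < n, κ.getD s 0 ≠ 0 ∧ lab n κ x = n + 1 + s := fun x => by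
    unfold lab
    split_ifs with c1 c2 c3
    · exact Or.inl rfl
    · exact Or.inr (Or.inl ⟨x / 4 + 1, by omega, by rw [rho_succ, if_neg (by tauto)]⟩)
    · exact Or.inr (Or.inl ⟨x / 4, by omega, rfl⟩)
    · exact Or.inr (Or.inr ⟨x / 4, by omega, by tauto, rfl⟩)
  constructor
  · obtain ⟨w, hw⟩ : ∃ w : Fin (4 * n), ∀ x : Fin (4 * n), lab n κ x = rho κ n → E x w := by
      by_cases h : ∃ w : Fin (4 * n), lab n κ w = rho κ n
      · obtain ⟨w, h⟩ := h; exact ⟨w, fun x e => e1 _ _ (e.trans h.symm)⟩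
      · exact ⟨z, fun x e => absurd ⟨x, e⟩ h⟩
    have G : ∀ s ≤ n, ∀ x : Fin (4 * n), lab n κ x = rho κ s → E x z ∨ E x w := by
      intro s hs
      induction hs using Nat.decreasingInduction with
      | self => exact fun x e => Or.inr (hw x e)
      | of_succ s hs ih =>
        intro x e
        by_cases c : κ.getD s 0 = 0
        · exact ih x (by rw [rho_succ, if_pos c]; exact e)
        obtain ⟨a, b, d, h1, h2, h3, h4⟩ := gad s hs c
        have := e1 x b (e.trans h2.symm)
        split_ifs at h4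
        · exact Or.inl (E.trans' this h4.1)
        · exact (ih a h1).imp (E.trans' (E.trans' this (E.symm' h4.1)))
            (E.trans' (E.trans' this (E.symm' h4.1)))
    refine (ncl_le {z, w} fun x => ?_).trans card_le_two
    simp only [mem_insert, mem_singleton, exists_eq_or_imp, exists_eq_left]
    rcases cs x with h | ⟨s, hs, h⟩ | ⟨s, hs, c, h⟩
    · exact Or.inl (z0 x h)
    · exact G s hs x h
    · obtain ⟨a, b, d, h1, h2, h3, h4⟩ := gad s hs c
      have := e1 x d (h.trans h3.symm)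
      split_ifs at h4
      · exact (G _ hs a h1).imp (E.trans' (E.trans' this h4.2)) (E.trans' (E.trans' this h4.2))
      · exact Or.inl (E.trans' this h4.2)
  · intro hc
    have G : ∀ s ≤ n, ∀ x : Fin (4 * n), lab n κ x = rho κ s → E x z := by
      intro s
      induction s with
      | zero => exact fun _ x e => z0 x (by simpa [rho, lsum_eq] using e)
      | succ s ih =>
        intro hs x e
        by_cases c : κ.getD s 0 = 0
        · exact ih (by omega) x (by rwa [rho_succ, if_pos c] at e)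
        obtain ⟨a, b, d, h1, h2, h3, h4⟩ := gad s hs c
        rw [if_neg fun h => hc ⟨s, hs, c, h⟩] at h4
        exact E.trans' (e1 x a (e.trans h1.symm)) (E.trans' h4.1 (ih (by omega) b h2))
    refine (ncl_le {z} fun x => ⟨z, by simp, ?_⟩).trans (by simp)
    rcases cs x with h | ⟨s, hs, h⟩ | ⟨s, hs, c, h⟩
    · exact z0 x h
    · exact G s hs x h
    · obtain ⟨a, b, d, h1, h2, h3, h4⟩ := gad s hs c
      rw [if_neg fun h => hc ⟨s, hs, c, h⟩] at h4
      exact E.trans' (e1 x d (h.trans h3.symm)) h4.2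

end

def cls (l : List ℕ) : ℕ := (List.range (l.sum + 1)).countP fun i => decide (i ∈ l)

def LL (n W : ℕ) (K : List (List ℕ)) : List (List ℕ) :=
  List.replicate (2 * W) ((List.range (4 * n)).map (ml fun _ => true)) ++
  (List.replicate (2 * W) ((List.range (4 * n)).map (ml fun _ => false)) ++
  (List.replicate (W + K.length) (List.range (4 * n)) ++
  K.map fun κ => (List.range (4 * n)).map (lab n κ)))

def red (I : ℕ × List (List ℕ)) : ℕ × List (List ℕ) × ℕ :=
  (4 * I.1, LL I.1 (8 * I.1 * I.2.length + 1) I.2, ((LL I.1 (8 * I.1 * I.2.length + 1) I.2).map cls).sum -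
    (6 * I.1 * (8 * I.1 * I.2.length + 1) + 4 * I.2.length))

lemma part_map (N : ℕ) (f : ℕ → ℕ) :
    part N ((List.range N).map f) = Setoid.ker fun x : Fin N => f x := by
  unfold part; congr 1; ext x; simp

lemma ncl_part {N : ℕ} {l : List ℕ} (h : l.length = N) : ncl (part N l) = cls l := by
  subst h
  rw [part, ncl_ker, cls, List.countP_eq_length_filter,
    ← List.toFinset_card_of_nodup (List.nodup_range.filter _)]
  congr 1; ext i
  simp only [mem_image, mem_univ, true_and, List.mem_toFinset, List.mem_filter, List.mem_range,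
    decide_eq_true_eq]
  constructor
  · rintro ⟨x, rfl⟩
    have : l.getD x 0 ∈ l := by simp
    exact ⟨Nat.lt_succ_of_le (List.single_le_sum (fun _ _ => Nat.zero_le _) _ this), this⟩
  · rintro ⟨-, h⟩
    obtain ⟨j, hj, rfl⟩ := List.getElem_of_mem h
    exact ⟨⟨j, hj⟩, by simp [hj]⟩

lemma red_pt : PT red := by
  have h1 : ∀ b, PT fun x : ℕ => ml (fun _ => b) x := fun b => by
    unfold ml
    exact PT.add (by fun_prop) (PP.ite (by fun_prop) (by fun_prop)
      (PP.ite (by fun_prop) (by fun_prop) (by fun_prop)))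
  have h2 : PT fun x : List ℕ × ℕ => rho x.1 x.2 :=
    PT.lsum (by fun_prop) (PP.ite (by fun_prop) (by fun_prop) (by fun_prop))
  have h3 : PT fun x : ℕ × List ℕ × ℕ => lab x.1 x.2.1 x.2.2 := by
    have := h2.comp (f := fun x : ℕ × List ℕ × ℕ => (x.2.1, x.2.2 / 4)) (by fun_prop)
    unfold lab
    exact PP.ite (by fun_prop) (by fun_prop) (PP.ite (by fun_prop) (PT.add this (by fun_prop))
      (PP.ite (by fun_prop) this (by fun_prop)))
  have h4 : PT fun I : ℕ × List (List ℕ) => LL I.1 (8 * I.1 * I.2.length + 1) I.2 := by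
    unfold LL
    refine PT.append (PT.replicate (by fun_prop) (PT.map ((h1 _).comp (by fun_prop)) (by fun_prop)))
      (PT.append (PT.replicate (by fun_prop) (PT.map ((h1 _).comp (by fun_prop)) (by fun_prop)))
      (PT.append (by fun_prop) (PT.map (PT.map ?_ (by fun_prop)) (by fun_prop))))
    exact h3.comp (f := fun x : ((ℕ × List (List ℕ)) × List ℕ) × ℕ => (x.1.1.1, x.1.2, x.2))
      (by fun_prop)
  have h5 : PT cls := by
    unfold cls; exact PT.countP (PP.decide (by fun_prop)) (by fun_prop)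
  unfold red
  exact PT.pair (by fun_prop) (PT.pair h4 (PT.sub (PT.sum (PT.map (h5.comp (by fun_prop)) h4))
    (by fun_prop)))

lemma correct (n : ℕ) (K : List (List ℕ)) (hn : 0 < n) : MatSat n K ↔ Median (red (n, K)) := by
  obtain ⟨W, hW⟩ : ∃ W, W = 8 * n * K.length + 1 := ⟨_, rfl⟩
  simp only [Median, red, ← hW]
  have len : ∀ l ∈ LL n W K, l.length = 4 * n := by
    simp only [LL, List.mem_append, List.mem_replicate, List.mem_map]
    rintro l (⟨-, rfl⟩ | ⟨-, rfl⟩ | ⟨-, rfl⟩ | ⟨κ, -, rfl⟩) <;> simp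
  have bot : part (4 * n) (List.range (4 * n)) = ⊥ := by
    ext x z; rw [part, Setoid.ker_def]; simp [Fin.ext_iff]
  have sm : ∀ g : Setoid (Fin (4 * n)) → ℕ, ((LL n W K).map fun l => g (part (4 * n) l)).sum =
      2 * W * g (M n fun _ => true) + (2 * W * g (M n fun _ => false) + ((W + K.length) * g ⊥ +
      (K.map fun κ => g (CL n κ)).sum)) := fun g => by
    simp only [LL, List.map_append, List.sum_append, List.map_replicate, List.sum_replicate,
      smul_eq_mul, bot, part_map, List.map_map, Function.comp_def, M, CL]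
  obtain ⟨C, hC⟩ : ∃ C, C = ((LL n W K).map cls).sum := ⟨_, rfl⟩
  have c1 : ((LL n W K).map fun l => ncl (part (4 * n) l)).sum = C :=
    hC ▸ congrArg List.sum (List.map_congr_left fun l hl => ncl_part (len l hl))
  have key : ∀ Y : Setoid (Fin (4 * n)), ((LL n W K).map fun l => dist (part (4 * n) l) Y).sum +
      W * (4 * ncl (M n (fun _ => true) ⊔ Y) + 4 * ncl (M n (fun _ => false) ⊔ Y)) +
      2 * (K.map fun κ => ncl (CL n κ ⊔ Y)).sum = C + 3 * W * ncl Y := fun Y => by
    have a1 := sm fun X => dist X Y + 2 * ncl (X ⊔ Y)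
    have a2 := sm fun X => ncl (X ⊔ Y)
    have a3 := sm fun X => ncl Y
    have a4 := congrArg List.sum (List.map_congr_left (l := LL n W K) fun l _ =>
      dist_eq (part (4 * n) l) Y)
    simp only [List.sum_map_add, List.sum_map_mul_left, c1, a2, a3, bot_sup_eq] at a4
    simp only [List.map_const', List.sum_replicate, smul_eq_mul] at a4
    linarith
  have c2 : 6 * n * W + 4 * K.length ≤ C := by
    have a1 := sm ncl
    have a2 : ∀ y, ncl (M n y) = 2 * n := fun y => by
      qify; simp only [ncl_sum, sz_M]; simp; ring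
    have a3 : ncl (⊥ : Setoid (Fin (4 * n))) = 4 * n := by
      rw [← Setoid.injective_iff_ker_bot id |>.1 Function.injective_id, ncl_ker]; simp
    rw [c1, a2, a2, a3] at a1
    nlinarith [Nat.zero_le (K.map fun κ => ncl (CL n κ)).sum]
  rw [← hC]
  constructor
  · rintro ⟨y, h⟩
    refine ⟨len, M n y, ?_⟩
    have a1 := key (M n y)
    have a2 := Nat.mul_le_mul_left W (heavy_ge (n := n) y)
    have a3 := List.card_nsmul_le_sum (K.map fun κ => ncl (CL n κ ⊔ M n y)) 2 (by
      simpa using fun κ hκ => clause_ge (h κ hκ))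
    simp only [List.length_map, smul_eq_mul] at a3
    refine Nat.le_sub_of_add_le ?_
    linarith
  · rintro ⟨-, Y, h⟩
    have a1 := key Y
    have a0 := Nat.add_le_of_le_sub c2 h
    obtain ⟨a2, a3⟩ := heavy_le Y
    have a4 := List.sum_le_card_nsmul (K.map fun κ => ncl (CL n κ ⊔ Y)) (4 * n) (by
      simpa using fun κ _ => (ncl_le univ fun x => ⟨x, mem_univ _, Setoid.refl' _ x⟩).trans (by simp))
    simp only [List.length_map, smul_eq_mul] at a4
    obtain ⟨y, hy⟩ := a3 (by by_contra! hc; nlinarith [Nat.mul_le_mul_left W (Nat.succ_le_of_lt hc)])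
    refine ⟨y, fun κ hκ => by_contra fun hc => ?_⟩
    have a5 := List.sum_lt_sum (l := K) (fun κ => ncl (CL n κ ⊔ Y)) (fun _ => 2)
      (fun κ _ => (clause_le hn hy).1) ⟨κ, hκ, Nat.lt_succ_of_le ((clause_le hn hy).2 hc)⟩
    simp only [List.map_const', List.sum_replicate, smul_eq_mul] at a5
    nlinarith [Nat.mul_le_mul_left W a2]

theorem result : NPHard (Lang Median) := (Hard.of_matSat red_pt correct).npHard

end Pool.Agent.Results.MP_3853ed_lc.NPHard
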